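import Pool.Agent.H75.OM.TC

set_option autoImplicit false

namespace Pool.Agent.H20.OMN

open Finset Pool.Agent.H6.NB Pool.Agent.H70.OQ Pool.Agent.H70.EH Pool.Agent.H70.EI
open Pool.Agent.H78.XQ Pool.Agent.H75.OM

theorem crun_cons (O : List Bool → Bool) (g : Gate) (C : Circ) (v : List Bool) :
    crun O (g :: C) v = crun O C (v ++ [g.val O v]) := rfl

theorem crun_pre (O : List Bool → Bool) (C : Circ) (v : List Bool) :
    ∃ R : List Bool, R.length = C.length ∧ crun O C v = v ++ R := by
  induction C generalizing v with
  | nil => exact ⟨[], rfl, by simp [crun]⟩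
  | cons g C ih =>
    obtain ⟨R, h1, h2⟩ := ih (v ++ [g.val O v])
    exact ⟨g.val O v :: R, by simp [h1], by rw [crun_cons, h2]; simp⟩

theorem crun_iff (O : List Bool → Bool) (C : Circ) (v A : List Bool)
    (hA : A.length = C.length) :
    (∀ (j : ℕ) (h : j < C.length), (C[j]).val O (v ++ A.take j) = A.getD j false) ↔
      crun O C v = v ++ A := by
  induction C generalizing v A with
  | nil =>
    have : A = [] := List.length_eq_zero_iff.mp hA
    subst this
    simp [crun]
  | cons g C ih =>
    obtain _ | ⟨b, A⟩ := A
    · simp at hA
    have hA' : A.length = C.length := by simpa using hA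
    have h1 : (∀ (j : ℕ) (h : j < (g :: C).length),
        ((g :: C)[j]).val O (v ++ (b :: A).take j) = (b :: A).getD j false) ↔
        (g.val O v = b ∧ ∀ (j : ℕ) (h : j < C.length),
          (C[j]).val O ((v ++ [b]) ++ A.take j) = A.getD j false) := by
      constructor
      · intro h
        refine ⟨?_, ?_⟩
        · have := h 0 (by simp)
          simpa using this
        · intro j hj
          have := h (j + 1) (by simpa using hj)
          simpa using this
      · rintro ⟨h0, h⟩ j hj
        obtain _ | j := j
        · simpa using h0
        · have := h j (by simpa using hj)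
          simpa using this
    rw [h1, ih _ _ hA', crun_cons]
    constructor
    · rintro ⟨h2, h3⟩
      rw [h2, h3]
      simp
    · intro h2
      obtain ⟨R, h3, h4⟩ := crun_pre O C (v ++ [g.val O v])
      have h5 : (v ++ [g.val O v]) ++ R = v ++ b :: A := by rw [← h4, h2]
      rw [List.append_assoc] at h5
      have h6 := List.append_cancel_left h5
      have h7 : g.val O v = b := by
        simp only [List.cons_append, List.nil_append, List.cons.injEq] at h6
        exact h6.1
      refine ⟨h7, ?_⟩
      rw [h7] at h2
      rw [h2]
      simp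

theorem cout_iff (O : List Bool → Bool) (C : Circ) (v : List Bool) :
    cout O C v = true ↔ ∃ a : Fin C.length → Bool, (List.ofFn a).getLastD false = true ∧
      ¬ ∃ j : Fin C.length, (C[(j : ℕ)]).val O (v ++ (List.ofFn a).take j) = !(a j) := by
  have key : ∀ a : Fin C.length → Bool,
      (¬ ∃ j : Fin C.length, (C[(j : ℕ)]).val O (v ++ (List.ofFn a).take j) = !(a j)) ↔
        crun O C v = v ++ List.ofFn a := by
    intro a
    rw [← crun_iff O C v (List.ofFn a) (by simp)]
    constructor
    · intro h j hj
      by_contra hne
      apply h
      refine ⟨⟨j, hj⟩, ?_⟩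
      have hg : (List.ofFn a).getD j false = a ⟨j, hj⟩ := by
        rw [List.getD_eq_getElem _ _ (by simpa using hj)]
        simp
      rw [hg] at hne
      simp only
      revert hne
      cases (C[j]).val O (v ++ (List.ofFn a).take j) <;> cases a ⟨j, hj⟩ <;> simp
    · rintro h ⟨j, hj⟩
      have h2 := h j j.2
      have hg : (List.ofFn a).getD j false = a j := by
        rw [List.getD_eq_getElem _ _ (by simp)]
        simp
      rw [hg] at h2
      rw [h2] at hj
      revert hj
      cases a j <;> simp
  constructor
  · intro h
    obtain ⟨R, h1, h2⟩ := crun_pre O C v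
    have h3 : List.ofFn (fun j : Fin C.length => R.getD j false) = R := by
      apply List.ext_getElem
      · simp [h1]
      · intro i hi hi'
        simp [hi']
    refine ⟨fun j => R.getD j false, ?_, ?_⟩
    · rw [h3]
      unfold cout at h
      rw [h2] at h
      simpa using h
    · rw [key, h3]
      exact h2
  · rintro ⟨a, h1, h2⟩
    rw [key] at h2
    unfold cout
    rw [h2]
    simpa using h1

theorem cl_const (X : Type) (S : ℕ) (hS : 1 ≤ S) (b : Bool) (e : ℕ) :
    Cl X S e (fun _ => b) := by
  induction e with
  | zero => exact Or.inl ⟨b, fun _ => rfl⟩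
  | succ e ih =>
    refine ⟨1, fun _ => fun _ => b, fun _ => true, hS, fun _ => ih, ?_⟩
    intro y
    simp

theorem size_le (C : Circ) (g : Gate) (hg : g ∈ C) : g.size ≤ csize C := by
  unfold csize
  exact List.single_le_sum (by simp) _ (List.mem_map_of_mem hg)

theorem len_le (C : Circ) : C.length ≤ csize C := by
  induction C with
  | nil => simp [csize]
  | cons g C ih =>
    have h1 : csize (g :: C) = g.size + csize C := by simp [csize]
    have h2 : 1 ≤ g.size := by cases g <;> simp [Gate.size]
    rw [h1, List.length_cons]
    omega

theorem pf_CTF (h1 : T_MNS) : T_CTF := by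
  intro X S e s O C x hS2 hS hC hO
  have hm : C.length ≤ s := (len_le C).trans hC
  have hcard : Fintype.card (Fin C.length → Bool) = 2 ^ C.length := by simp
  let E : (Fin C.length → Bool) ≃ Fin (2 ^ C.length) := Fintype.equivFinOfCardEq hcard
  -- the tests
  have htest : ∀ a : Fin C.length → Bool, Cl X S (e + 1) fun y =>
      decide (∃ j : Fin C.length,
        (C[(j : ℕ)]).val (O y) (x ++ (List.ofFn a).take j) = !(a j)) := by
    intro a
    refine ⟨C.length, fun j y => (C[(j : ℕ)]).val (O y) (x ++ (List.ofFn a).take j),
      fun j => !(a j), ?_, ?_, ?_⟩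
    · exact (hm.trans (Nat.lt_two_pow_self).le).trans hS
    · intro j
      have hg : C[(j : ℕ)] ∈ C := List.getElem_mem _
      have hsz := (size_le C _ hg).trans hC
      show Cl X S e fun y => (C[(j : ℕ)]).val (O y) (x ++ (List.ofFn a).take j)
      rcases hgj : C[(j : ℕ)] with ⟨i, k⟩ | l
      · have h9 := cl_const X S (by omega) (!((x ++ (List.ofFn a).take j).getD i false &&
          (x ++ (List.ofFn a).take j).getD k false)) e
        exact h9
      · rw [hgj] at hsz
        simp only [Gate.size] at hsz
        exact hO _ (by rw [List.length_map]; omega)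
    · intro y
      simp
  refine ⟨2 ^ C.length, fun i => if (List.ofFn (E.symm i)).getLastD false = true then
      (fun y => decide (∃ j : Fin C.length,
        (C[(j : ℕ)]).val (O y) (x ++ (List.ofFn (E.symm i)).take j) = !(E.symm i j)))
      else fun _ => true, fun _ => false, ?_, ?_, ?_⟩
  · exact (Nat.pow_le_pow_right (by norm_num) hm).trans hS
  · intro i
    by_cases h2 : (List.ofFn (E.symm i)).getLastD false = true
    · simp only [if_pos h2]
      exact htest _
    · simp only [if_neg h2]
      exact cl_const X S (by omega) _ _
  · intro y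
    rw [cout_iff]
    constructor
    · rintro ⟨a, h2, h3⟩
      refine ⟨E a, ?_⟩
      simp only [Equiv.symm_apply_apply, if_pos h2]
      simpa using h3
    · rintro ⟨i, hi⟩
      by_cases h2 : (List.ofFn (E.symm i)).getLastD false = true
      · simp only [if_pos h2] at hi
        exact ⟨E.symm i, h2, by simpa using hi⟩
      · simp only [if_neg h2] at hi
        simp at hi

end Pool.Agent.H20.OMN
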