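import Pool.Agent.H75.OM.TA

set_option autoImplicit false

namespace Pool.Agent.H20.OMN

open Finset Pool.Agent.H6.NB Pool.Agent.H70.OQ Pool.Agent.H70.EH Pool.Agent.H70.EI
open Pool.Agent.H78.XQ Pool.Agent.H75.OM

/-- Bits as elements of the field with two elements. -/
def bz (b : Bool) : ZMod 2 := if b then 1 else 0

theorem bz_inj {b c : Bool} (h : bz b = bz c) : b = c := by
  revert h
  cases b <;> cases c <;> simp [bz]

theorem bz_par {N : ℕ} (f : Fin N → Bool) : bz (par f) = ∑ i, bz (f i) := by
  have h1 : (∑ i, bz (f i)) = (((univ.filter fun i => f i = true).card : ℕ) : ZMod 2) := by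
    unfold bz
    rw [Finset.sum_boole]
  rw [h1]
  unfold par bz
  by_cases h : Odd (univ.filter fun i => f i = true).card
  · rw [(ZMod.natCast_eq_one_iff_odd).mpr h]
    simp [h]
  · have h2 := h
    rw [Nat.not_odd_iff_even] at h2
    rw [(ZMod.natCast_eq_zero_iff_even).mpr h2]
    simp [h]

theorem bz_mul (b : Bool) (x : ZMod 2) : bz (b && decide (x = 1)) = bz b * x := by
  revert x
  cases b
  · intro x
    simp [bz]
  · intro x
    unfold bz
    fin_cases x <;> decide

theorem pf_DES : T_DES := by
  intro l N hl
  have : Fact (Nat.Prime 2) := ⟨Nat.prime_two⟩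
  classical
  let F := GaloisField 2 l
  have hfr : Module.finrank (ZMod 2) F = l := GaloisField.finrank 2 (by omega)
  let b : Module.Basis (Fin l) (ZMod 2) F := Module.finBasisOfFinrankEq (ZMod 2) F hfr
  let ph : (Fin l → Bool) → F := fun a => b.equivFun.symm fun j => bz (a j)
  have hph : Function.Injective ph := by
    intro a a' h
    have h1 := b.equivFun.symm.injective h
    funext j
    exact bz_inj (congrFun h1 j)
  refine ⟨fun a i j => decide (b.equivFun ((ph a) ^ (i : ℕ)) j = 1), ?_⟩
  set M : (Fin l → Bool) → Fin N → Fin l → Bool :=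
    fun a i j => decide (b.equivFun ((ph a) ^ (i : ℕ)) j = 1) with hM
  have key : ∀ (a : Fin l → Bool) (v : Fin N → Bool),
      ph (lin M a v) = ∑ i : Fin N, (if v i then (1 : F) else 0) * (ph a) ^ (i : ℕ) := by
    intro a v
    apply b.equivFun.injective
    funext j
    have h1 : b.equivFun (ph (lin M a v)) j = bz (lin M a v j) := by
      show b.equivFun (b.equivFun.symm fun j => bz (lin M a v j)) j = _
      rw [LinearEquiv.apply_symm_apply]
    rw [h1]
    unfold lin
    rw [bz_par, map_sum, Finset.sum_apply]
    refine Finset.sum_congr rfl fun i _ => ?_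
    simp only [hM]
    rw [bz_mul]
    cases v i <;> simp [bz]
  intro v v' hvv
  obtain ⟨i0, hi0⟩ : ∃ i, v i ≠ v' i := by
    by_contra h
    push Not at h
    exact hvv (funext h)
  let P : Polynomial F := ∑ i : Fin N,
    Polynomial.C ((if v i then (1 : F) else 0) - (if v' i then (1 : F) else 0)) *
      Polynomial.X ^ (i : ℕ)
  have hcoef : P.coeff i0 ≠ 0 := by
    have : P.coeff i0 = (if v i0 then (1 : F) else 0) - (if v' i0 then (1 : F) else 0) := by
      simp only [P, Polynomial.finsetSum_coeff, Polynomial.coeff_C_mul, Polynomial.coeff_X_pow]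
      rw [Finset.sum_eq_single i0]
      · simp
      · intro i _ hi
        have h5 : ¬ ((i0 : ℕ) = (i : ℕ)) := fun h => hi (Fin.ext h.symm)
        rw [if_neg h5, mul_zero]
      · simp
    rw [this]
    revert hi0
    cases v i0 <;> cases v' i0 <;> simp
  have hP : P ≠ 0 := fun h => hcoef (by rw [h]; simp)
  have hdeg : P.natDegree ≤ N := by
    refine Polynomial.natDegree_sum_le_of_forall_le _ _ fun i _ => ?_
    exact (Polynomial.natDegree_C_mul_X_pow_le _ _).trans i.2.le
  have hroot : ∀ a ∈ univ.filter (fun a => lin M a v = lin M a v'), ph a ∈ P.roots.toFinset := by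
    intro a ha
    rw [mem_filter] at ha
    rw [Multiset.mem_toFinset, Polynomial.mem_roots hP, Polynomial.IsRoot.def]
    have h1 := key a v
    have h2 := key a v'
    rw [ha.2] at h1
    have h3 : Polynomial.eval (ph a) P = ∑ i : Fin N,
        ((if v i then (1 : F) else 0) - (if v' i then (1 : F) else 0)) * (ph a) ^ (i : ℕ) := by
      simp only [P, Polynomial.eval_finset_sum, Polynomial.eval_mul, Polynomial.eval_C,
        Polynomial.eval_pow, Polynomial.eval_X]
    rw [h3]
    simp only [sub_mul, Finset.sum_sub_distrib]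
    rw [← h1, ← h2, sub_self]
  calc (univ.filter fun a => lin M a v = lin M a v').card
      ≤ P.roots.toFinset.card := by
        refine Finset.card_le_card_of_injOn ph (fun a ha => hroot a ha) (hph.injOn)
    _ ≤ Multiset.card P.roots := Multiset.toFinset_card_le _
    _ ≤ P.natDegree := Polynomial.card_roots' P
    _ ≤ N := hdeg

end Pool.Agent.H20.OMN
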